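import Pool.Agent.V8H84.HL.Defs

/-!
# `ρ` is the case `r = 1`, `δ = 1`; the lower bound for `ρ*`
-/

set_option autoImplicit false

namespace Pool.Agent.V8H84.HL

open Finset Filter

theorem almostPrime_one {n : ℕ} (hn : 2 ≤ n) : AlmostPrime 1 1 n ↔ n.Prime := by
  constructor
  · rintro ⟨h1, -⟩
    have h2 : n.primeFactorsList ≠ [] := by
      rw [Ne, Nat.primeFactorsList_eq_nil]
      omega
    have h3 : n.primeFactorsList.length = 1 := by
      have : 0 < n.primeFactorsList.length := List.length_pos_of_ne_nil h2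
      omega
    obtain ⟨q, hq⟩ := List.length_eq_one_iff.1 h3
    have h4 := Nat.prod_primeFactorsList (show n ≠ 0 by omega)
    rw [hq, List.prod_singleton] at h4
    rw [← h4]
    exact Nat.prime_of_mem_primeFactorsList (n := n) (by rw [hq]; simp)
  · intro h
    refine ⟨by rw [Nat.primeFactorsList_prime h]; simp, fun q hq hqn => ?_⟩
    rw [(Nat.prime_dvd_prime_iff_eq hq h).1 hqn, Real.rpow_one]

theorem number_one (x y : ℕ) (hx : 1 ≤ x) :
    number 1 1 x y = Nat.primeCounting (x + y) - Nat.primeCounting x := by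
  classical
  have h1 : (Ioc x (x + y)).filter (AlmostPrime 1 1) = (Ioc x (x + y)).filter Nat.Prime := by
    apply filter_congr
    intro n hn
    rw [mem_Ioc] at hn
    exact almostPrime_one (by omega)
  have h2 : ∀ a : ℕ, Nat.primeCounting a = ((Icc 1 a).filter Nat.Prime).card := by
    intro a
    rw [Nat.primeCounting, Nat.primeCounting', Nat.count_eq_card_filter_range]
    congr 1
    ext p
    rw [mem_filter, mem_filter, mem_range, mem_Icc]
    constructor
    · rintro ⟨h, hp⟩
      exact ⟨⟨hp.pos, by omega⟩, hp⟩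
    · rintro ⟨h, hp⟩
      exact ⟨by omega, hp⟩
  have h3 : (Icc 1 (x + y)).filter Nat.Prime =
      (Icc 1 x).filter Nat.Prime ∪ (Ioc x (x + y)).filter Nat.Prime := by
    rw [← filter_union]
    congr 1
    ext p
    rw [mem_union, mem_Icc, mem_Icc, mem_Ioc]
    omega
  have h4 : Disjoint ((Icc 1 x).filter Nat.Prime) ((Ioc x (x + y)).filter Nat.Prime) := by
    rw [disjoint_left]
    intro p hp hp2
    rw [mem_filter, mem_Icc] at hp
    rw [mem_filter, mem_Ioc] at hp2
    omega
  unfold number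
  rw [h1, h2 (x + y), h2 x, h3, card_union_of_disjoint h4]
  omega

/-- `ρ(y)` is the function of the almost primes for `r = 1` and `δ = 1` -/
theorem rho_eq (y : ℕ) : rho y = rhoAlmost 1 1 y := by
  unfold rho rhoAlmost
  apply limsup_congr
  filter_upwards [eventually_ge_atTop 1] with x hx
  exact (number_one x y hx).symm

/-- the bound of Hensley and Richards with a larger second term -/
def Dense (α : ℝ) : Prop := ∃ x0 : ℝ, ∀ x : ℝ, x0 ≤ x → ∃ S : Finset ℤ, 0 ∈ S ∧
  (∀ s ∈ S, 0 ≤ s ∧ (s : ℝ) < x) ∧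
  (∀ q : ℕ, q.Prime → ∃ r : ℤ, ∀ s ∈ S, ¬ ((q : ℤ) ∣ s - r)) ∧
  (Nat.primeCounting ⌊x⌋₊ : ℝ) + α * (x * Real.log (Real.log (Real.log x)) / (Real.log x) ^ 2)
    ≤ (S.card : ℝ)

theorem rhoStar_ge {α : ℝ} (h : Dense α) : ∀ᶠ y : ℕ in atTop,
    (Nat.primeCounting y : ℝ) + α * (y * Real.log (Real.log (Real.log y)) / (Real.log y) ^ 2) ≤
      rhoStar y := by
  classical
  obtain ⟨x0, hx0⟩ := h
  filter_upwards [tendsto_natCast_atTop_atTop.eventually_ge_atTop x0] with y hy
  obtain ⟨S, -, h1, h2, h3⟩ := hx0 y hy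
  rw [Nat.floor_natCast] at h3
  refine h3.trans ?_
  have hinj : Set.InjOn Int.toNat (S : Set ℤ) := by
    intro a ha b hb hab
    have := (h1 a ha).1
    have := (h1 b hb).1
    omega
  rw [← card_image_of_injOn hinj]
  have h4 : (S.image Int.toNat).card ≤ rhoStar y := by
    apply card_le_rhoStar
    · intro t ht
      obtain ⟨s, hs, rfl⟩ := mem_image.1 ht
      obtain ⟨g1, g2⟩ := h1 s hs
      rw [mem_range]
      have : s < (y : ℤ) := by exact_mod_cast g2
      omega
    · intro q hq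
      obtain ⟨r, hr⟩ := h2 q hq
      refine ⟨(r % (q : ℤ)).toNat, fun t ht hta => ?_⟩
      obtain ⟨s, hs, rfl⟩ := mem_image.1 ht
      apply hr s hs
      have hq0 : (q : ℤ) ≠ 0 := by exact_mod_cast hq.ne_zero
      have g1 : ((s.toNat : ℕ) : ℤ) = s := Int.toNat_of_nonneg (h1 s hs).1
      have g2 : (((r % (q : ℤ)).toNat : ℕ) : ℤ) = r % q :=
        Int.toNat_of_nonneg (Int.emod_nonneg _ hq0)
      have g3 := (Int.natCast_modEq_iff.2 hta)
      rw [g1, g2] at g3
      have g4 : s ≡ r [ZMOD q] := g3.trans (Int.mod_modEq _ _)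
      exact (Int.modEq_iff_dvd.1 g4.symm)
  exact_mod_cast h4

end Pool.Agent.V8H84.HL
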