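import Pool.Agent.V8H84.HL.Win
import Pool.Agent.V8H84.HL.Rho

/-!
# Assembly
-/

set_option autoImplicit false

namespace Pool.Agent.V8H84.HL

open Finset Filter

theorem number_mono {r r' : ℕ} {δ δ' : ℝ} (hr : r ≤ r') (hδ : δ' ≤ δ) (x y : ℕ) :
    number r δ x y ≤ number r' δ' x y := by
  classical
  unfold number
  apply card_le_card
  intro n hn
  rw [mem_filter, mem_Ioc] at hn ⊢
  refine ⟨hn.1, hn.2.1.trans hr, fun q hq hqn => ?_⟩
  refine le_trans ?_ (hn.2.2 q hq hqn)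
  apply Real.rpow_le_rpow_of_exponent_le _ hδ
  have : 1 ≤ n := by omega
  exact_mod_cast this

theorem rhoAlmost_mono {r r' : ℕ} {δ δ' : ℝ} (hr : r ≤ r') (hδ : δ' ≤ δ) (y : ℕ) :
    rhoAlmost r δ y ≤ rhoAlmost r' δ' y := by
  unfold rhoAlmost
  refine limsup_le_limsup (Eventually.of_forall fun x => number_mono hr hδ x y) ?_ ?_
  · exact ⟨0, by simp⟩
  · exact ⟨y, by
      rw [eventually_map]
      exact Eventually.of_forall fun x => number_le r' δ' x y⟩

theorem eq_all (hR : Runs) (y : ℕ) : ∃ (r₀ : ℕ) (δ₀ : ℝ), 0 < δ₀ ∧ ∀ r : ℕ, r₀ ≤ r → ∀ δ : ℝ,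
    0 < δ → δ ≤ δ₀ → rhoAlmost r δ y = rhoStar y := by
  obtain ⟨r₀, δ₀, hδ₀, h⟩ := eq_rhoStar hR y
  refine ⟨r₀, δ₀, hδ₀, fun r hr δ hδ hδ' => le_antisymm (rhoAlmost_le r δ hδ y) ?_⟩
  rw [← h]
  exact rhoAlmost_mono hr hδ' y

theorem extra_tendsto : Tendsto (fun y : ℕ =>
    (1 / 4 : ℝ) * (y * Real.log (Real.log (Real.log y)) / (Real.log y) ^ 2)) atTop atTop := by
  have h1 : Tendsto (fun x : ℝ => Real.log x ^ 2 / x) atTop (nhds 0) := by
    have := Real.tendsto_pow_log_div_mul_add_atTop 1 0 2 one_ne_zero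
    simpa using this
  have h2 : Tendsto (fun x : ℝ => (Real.log x ^ 2 / x)⁻¹) atTop atTop := by
    apply Tendsto.inv_tendsto_nhdsGT_zero
    rw [tendsto_nhdsWithin_iff]
    refine ⟨h1, ?_⟩
    filter_upwards [eventually_gt_atTop 1] with x hx
    rw [Set.mem_Ioi]
    have := Real.log_pos hx
    positivity
  have h3 : Tendsto (fun x : ℝ => Real.log (Real.log (Real.log x))) atTop atTop :=
    Real.tendsto_log_atTop.comp (Real.tendsto_log_atTop.comp Real.tendsto_log_atTop)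
  have h4 : Tendsto (fun x : ℝ => (1 / 4 : ℝ) *
      (x * Real.log (Real.log (Real.log x)) / (Real.log x) ^ 2)) atTop atTop := by
    apply Tendsto.const_mul_atTop (by norm_num)
    have h5 := h2.atTop_mul_atTop₀ h3
    refine h5.congr' ?_
    filter_upwards [eventually_gt_atTop 1] with x hx
    have := Real.log_pos hx
    field_simp
  exact h4.comp tendsto_natCast_atTop_atTop

theorem analogue (hR : Runs) (hD : Dense (1 / 4)) : ∃ (r : ℕ → ℕ) (δ : ℕ → ℝ), (∀ y, 0 < δ y) ∧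
    Tendsto (fun y : ℕ => (Nat.primeCounting y : ℤ) - rhoAlmost (r y) (δ y) y) atTop atBot := by
  choose r δ hδ h using eq_rhoStar hR
  refine ⟨r, δ, hδ, ?_⟩
  rw [tendsto_atBot]
  intro b
  filter_upwards [rhoStar_ge hD, extra_tendsto.eventually_ge_atTop (-(b : ℝ))] with y h1 h2
  rw [h y]
  have h3 : (Nat.primeCounting y : ℝ) - rhoStar y ≤ b := by linarith
  have h4 : (((Nat.primeCounting y : ℤ) - rhoStar y : ℤ) : ℝ) ≤ (b : ℝ) := by
    push_cast
    exact h3
  exact_mod_cast h4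

/-- a positive answer would separate primes and almost primes -/
theorem separation {α : ℝ} (hD : Dense α)
    (hQ : Tendsto (fun y : ℕ => (Nat.primeCounting y : ℤ) - rho y) atTop atTop) (M : ℝ) :
    ∀ᶠ y : ℕ in atTop, (rho y : ℝ) + M +
      α * (y * Real.log (Real.log (Real.log y)) / (Real.log y) ^ 2) ≤ rhoStar y := by
  filter_upwards [rhoStar_ge hD, hQ.eventually_ge_atTop ⌈M⌉] with y h1 h2
  have h3 : M ≤ (((Nat.primeCounting y : ℤ) - rho y : ℤ) : ℝ) := by
    refine (Int.le_ceil M).trans ?_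
    exact_mod_cast h2
  push_cast at h3
  linarith

end Pool.Agent.V8H84.HL
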