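import Mathlib

/-!
# The Hardy-Littlewood function of the almost primes: definitions and elementary part
-/

set_option autoImplicit false

namespace Pool.Agent.V8H84.HL

open Finset Filter

/-- some residue class modulo each prime contains no element of `T` -/
def Admissible (T : Finset ℕ) : Prop :=
  ∀ q : ℕ, q.Prime → ∃ a : ℕ, ∀ t ∈ T, ¬ t ≡ a [MOD q]

open Classical in
/-- `ρ*(y)`: the largest size of an admissible set in a window of `y` consecutive integers -/
noncomputable def rhoStar (y : ℕ) : ℕ :=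
  ((range y).powerset.filter (fun T => Admissible T)).sup card

/-- `n` has at most `r` prime factors, counted with multiplicity, each of them at least `n ^ δ` -/
def AlmostPrime (r : ℕ) (δ : ℝ) (n : ℕ) : Prop :=
  n.primeFactorsList.length ≤ r ∧ ∀ q : ℕ, q.Prime → q ∣ n → (n : ℝ) ^ δ ≤ q

open Classical in
/-- the number of almost primes in `(x, x + y]` -/
noncomputable def number (r : ℕ) (δ : ℝ) (x y : ℕ) : ℕ :=
  ((Ioc x (x + y)).filter (AlmostPrime r δ)).card

/-- the Hardy-Littlewood function of the almost primes -/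
noncomputable def rhoAlmost (r : ℕ) (δ : ℝ) (y : ℕ) : ℕ :=
  limsup (fun x : ℕ => number r δ x y) atTop

/-- `ρ(y)` -/
noncomputable def rho (y : ℕ) : ℕ :=
  limsup (fun x : ℕ => Nat.primeCounting (x + y) - Nat.primeCounting x) atTop

theorem number_le (r : ℕ) (δ : ℝ) (x y : ℕ) : number r δ x y ≤ y := by
  classical
  unfold number
  refine (card_filter_le _ _).trans ?_
  rw [Nat.card_Ioc]
  omega

theorem card_le_rhoStar {y : ℕ} {T : Finset ℕ} (h : T ⊆ range y) (hT : Admissible T) :
    T.card ≤ rhoStar y := by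
  classical
  unfold rhoStar
  exact le_sup (f := card) (mem_filter.2 ⟨mem_powerset.2 h, hT⟩)

theorem admissible_empty : Admissible ∅ := fun q _ => ⟨0, fun t ht => by simp at ht⟩

theorem exists_extremal (y : ℕ) : ∃ T ⊆ range y, Admissible T ∧ T.card = rhoStar y := by
  classical
  unfold rhoStar
  have hne : ((range y).powerset.filter (fun T => Admissible T)).Nonempty :=
    ⟨∅, mem_filter.2 ⟨mem_powerset.2 (empty_subset _), admissible_empty⟩⟩
  obtain ⟨T, hT, h⟩ := exists_mem_eq_sup _ hne card
  rw [mem_filter, mem_powerset] at hT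
  exact ⟨T, hT.1, hT.2, h.symm⟩

/-- the almost primes of a late window form an admissible set -/
theorem number_le_rhoStar (r : ℕ) (δ : ℝ) (hδ : 0 < δ) (y : ℕ) :
    ∀ᶠ x : ℕ in atTop, number r δ x y ≤ rhoStar y := by
  classical
  have h1 : Tendsto (fun x : ℕ => (x : ℝ) ^ δ) atTop atTop :=
    (tendsto_rpow_atTop hδ).comp tendsto_natCast_atTop_atTop
  filter_upwards [h1.eventually_gt_atTop (y : ℝ)] with x hx
  unfold number
  obtain ⟨A, hA⟩ : ∃ A, A = (Ioc x (x + y)).filter (AlmostPrime r δ) := ⟨_, rfl⟩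
  rw [← hA]
  have hinj : Set.InjOn (fun n => n - (x + 1)) (A : Set ℕ) := by
    intro a ha b hb hab
    rw [hA, mem_coe, mem_filter, mem_Ioc] at ha hb
    simp only at hab
    omega
  rw [← card_image_of_injOn hinj]
  apply card_le_rhoStar
  · intro t ht
    obtain ⟨n, hn, rfl⟩ := mem_image.1 ht
    rw [hA, mem_filter, mem_Ioc] at hn
    rw [mem_range]
    omega
  · intro q hq
    by_cases hqy : q ≤ y
    · -- the class of zero
      obtain ⟨a, ha⟩ : ∃ a : ℕ, q ∣ a + (x + 1) := by
        refine ⟨(q - 1) * (x + 1), ?_⟩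
        have h2 : (q - 1) * (x + 1) + (x + 1) = q * (x + 1) := by
          have h3 : q = (q - 1) + 1 := by have := hq.pos; omega
          conv_rhs => rw [h3]
          ring
        rw [h2]
        exact dvd_mul_right _ _
      refine ⟨a, fun t ht hta => ?_⟩
      obtain ⟨n, hn, rfl⟩ := mem_image.1 ht
      rw [hA, mem_filter, mem_Ioc] at hn
      obtain ⟨⟨hn1, hn2⟩, -, hn3⟩ := hn
      have h4 : q ∣ n := by
        have h5 : (n - (x + 1)) + (x + 1) ≡ a + (x + 1) [MOD q] := Nat.ModEq.add_right _ hta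
        have h6 : (n - (x + 1)) + (x + 1) = n := by omega
        rw [h6] at h5
        exact (Nat.modEq_zero_iff_dvd.1 (h5.trans (Nat.modEq_zero_iff_dvd.2 ha)))
      have h5 := hn3 q hq h4
      have h6 : (x : ℝ) ^ δ ≤ (n : ℝ) ^ δ := by
        apply Real.rpow_le_rpow (by positivity) _ hδ.le
        exact_mod_cast hn1.le
      have h7 : (q : ℝ) ≤ y := by exact_mod_cast hqy
      linarith
    · push Not at hqy
      refine ⟨y, fun t ht hty => ?_⟩
      obtain ⟨n, hn, rfl⟩ := mem_image.1 ht
      rw [hA, mem_filter, mem_Ioc] at hn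
      have h2 : n - (x + 1) < y := by omega
      have h3 := Nat.ModEq.eq_of_lt_of_lt hty (by omega) hqy
      omega

theorem rhoAlmost_le (r : ℕ) (δ : ℝ) (hδ : 0 < δ) (y : ℕ) : rhoAlmost r δ y ≤ rhoStar y := by
  unfold rhoAlmost
  refine limsup_le_of_le ?_ (number_le_rhoStar r δ hδ y)
  exact ⟨0, by simp⟩

theorem le_rhoAlmost (r : ℕ) (δ : ℝ) (y k : ℕ) (h : ∃ᶠ x : ℕ in atTop, k ≤ number r δ x y) :
    k ≤ rhoAlmost r δ y := by
  unfold rhoAlmost
  refine le_limsup_of_frequently_le h ?_
  exact ⟨y, by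
    rw [eventually_map]
    exact Eventually.of_forall fun x => number_le r δ x y⟩

end Pool.Agent.V8H84.HL
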