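import Pool.Agent.V8H84.HL.Defs

/-!
# Windows behind primes
-/

set_option autoImplicit false

namespace Pool.Agent.V8H84.HL

open Finset Filter

/-- at most `r` prime factors, all of them at least `w` -/
def AlmostW (r : ℕ) (w : ℝ) (n : ℕ) : Prop :=
  n.primeFactorsList.length ≤ r ∧ ∀ q : ℕ, q.Prime → q ∣ n → w ≤ q

/-- the sieve input: clusters of primes followed by prescribed almost primes, in progressions -/
def Runs : Prop := ∀ (k : ℕ) (t : Fin k → ℕ),
    (∀ q : ℕ, q.Prime → ∃ n : ℕ, ¬ q ∣ n ∧ ∀ i, ¬ q ∣ n + t i) → ∀ m : ℕ,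
    ∃ (K r : ℕ) (δ : ℝ), 0 < δ ∧ ∀ S : Finset ℕ, K ≤ S.card → ∀ l : ℕ, ∃ B : ℕ,
      ∀ᶠ N : ℕ in atTop, ∃ H ⊆ S, m ≤ H.card ∧ ∃ n d : ℕ, 1 ≤ d ∧ (d : ℝ) ≤ Real.log N ^ B ∧
      ∀ j < l, N < n + j * d ∧ n + j * d + S.sup id ≤ 2 * N ∧
        (∀ s ∈ H, (n + j * d + s).Prime ∧
          ∀ i, AlmostW r ((N : ℝ) ^ δ) (n + j * d + s + t i))

/-- an extremal admissible set which starts with zero -/
theorem extremal_zero (y : ℕ) : ∃ T ⊆ range y, T.card = rhoStar y ∧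
    ∀ q : ℕ, q.Prime → ∃ n : ℕ, ¬ q ∣ n ∧ ∀ t ∈ T, ¬ q ∣ n + t := by
  classical
  obtain ⟨T, hT, hadm, hcard⟩ := exists_extremal y
  rcases T.eq_empty_or_nonempty with h0 | h0
  · refine ⟨T, hT, hcard, fun q hq => ⟨1, fun h => ?_, fun t ht => ?_⟩⟩
    · exact hq.one_lt.ne' (Nat.dvd_one.1 h)
    · rw [h0] at ht
      simp at ht
  · obtain ⟨t₀, ht₀, hmin⟩ : ∃ t₀ ∈ T, ∀ t ∈ T, t₀ ≤ t :=
      ⟨T.min' h0, T.min'_mem h0, fun t ht => T.min'_le t ht⟩
    have hinj : Set.InjOn (fun t => t - t₀) (T : Set ℕ) := by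
      intro a ha b hb hab
      have h1 := hmin a ha
      have h2 := hmin b hb
      simp only at hab
      omega
    refine ⟨T.image (fun t => t - t₀), ?_, ?_, ?_⟩
    · intro t ht
      obtain ⟨s, hs, rfl⟩ := mem_image.1 ht
      have := mem_range.1 (hT hs)
      rw [mem_range]
      omega
    · rw [card_image_of_injOn hinj, hcard]
    · intro q hq
      obtain ⟨a, ha⟩ := hadm q hq
      -- n + a = t₀ mod q
      refine ⟨t₀ + (q - 1) * a, ?_⟩
      have key : ∀ t ∈ T, ¬ q ∣ t + (q - 1) * a := by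
        intro t ht hd
        apply ha t ht
        have h1 : t + (q - 1) * a + a = t + q * a := by
          have h3 : q = (q - 1) + 1 := by have := hq.pos; omega
          conv_rhs => rw [h3]
          ring
        have h2 : t + (q - 1) * a + a ≡ 0 + a [MOD q] :=
          Nat.ModEq.add_right _ (Nat.modEq_zero_iff_dvd.2 hd)
        rw [h1, zero_add] at h2
        have h3 : t + q * a ≡ t [MOD q] := by
          have : t + q * a ≡ t + 0 [MOD q] :=
            Nat.ModEq.add_left _ (Nat.modEq_zero_iff_dvd.2 (dvd_mul_right _ _))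
          simpa using this
        exact h3.symm.trans h2
      refine ⟨key t₀ ht₀, fun t ht => ?_⟩
      obtain ⟨s, hs, rfl⟩ := mem_image.1 ht
      have h1 := hmin s hs
      have h2 : t₀ + (q - 1) * a + (s - t₀) = s + (q - 1) * a := by omega
      rw [h2]
      exact key s hs

/-- behind such a prime there is an extremal window -/
theorem window_eq {y r N x₀ p : ℕ} {δ : ℝ} (hδ : 0 < δ) {T : Finset ℕ} (hT : T ⊆ range y)
    (hcard : T.card = rhoStar y)
    (hx₀ : ∀ x ≥ x₀, number r (δ / 2) x y ≤ rhoStar y) (hN1 : x₀ + 1 ≤ N) (hN2 : y + 3 ≤ N)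
    (hp1 : N < p) (hp2 : p ≤ 2 * N)
    (h : ∀ t ∈ T, AlmostW r ((N : ℝ) ^ δ) (p + t)) :
    number r (δ / 2) (p - 1) y = rhoStar y := by
  classical
  apply le_antisymm (hx₀ _ (by omega))
  rw [← hcard]
  have hinj : Set.InjOn (fun t => p + t) (T : Set ℕ) := fun a _ b _ hab => by
    simp only at hab
    omega
  rw [← card_image_of_injOn hinj]
  unfold number
  apply card_le_card
  intro u hu
  obtain ⟨t, ht, rfl⟩ := mem_image.1 hu
  have hty := mem_range.1 (hT ht)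
  rw [mem_filter, mem_Ioc]
  refine ⟨by omega, (h t ht).1, fun q hq hqd => ?_⟩
  refine le_trans ?_ ((h t ht).2 q hq hqd)
  have h1 : ((p + t : ℕ) : ℝ) ≤ (N : ℝ) ^ (2 : ℝ) := by
    rw [Real.rpow_two]
    have h2 : p + t ≤ N ^ 2 := by nlinarith
    exact_mod_cast h2
  calc ((p + t : ℕ) : ℝ) ^ (δ / 2) ≤ ((N : ℝ) ^ (2 : ℝ)) ^ (δ / 2) :=
        Real.rpow_le_rpow (by positivity) h1 (half_pos hδ).le
    _ = (N : ℝ) ^ δ := by
        rw [← Real.rpow_mul (by positivity)]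
        congr 1
        ring

/-- the main statement: clusters of primes, each followed by an extremal window -/
theorem windows (hR : Runs) (y m : ℕ) : ∃ (K r : ℕ) (δ : ℝ), 0 < δ ∧ ∀ l : ℕ, ∃ B : ℕ,
    ∀ᶠ N : ℕ in atTop, ∃ n d : ℕ, 1 ≤ d ∧ (d : ℝ) ≤ Real.log N ^ B ∧
      ∀ j < l, N < n + j * d ∧ n + j * d + K ≤ 2 * N ∧
      m ≤ ((Icc (n + j * d) (n + j * d + K)).filter
        (fun p => p.Prime ∧ number r δ (p - 1) y = rhoStar y)).card := by
  classical
  obtain ⟨T, hT, hcard, hloc⟩ := extremal_zero y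
  obtain ⟨K, r, δ, hδ, h⟩ := hR T.card (fun i => (T.equivFin.symm i : ℕ)) (fun q hq => by
    obtain ⟨n, h1, h2⟩ := hloc q hq
    exact ⟨n, h1, fun i => h2 _ (T.equivFin.symm i).2⟩) m
  refine ⟨K, r, δ / 2, half_pos hδ, fun l => ?_⟩
  obtain ⟨B, hB⟩ := h (range (K + 1)) (by simp) l
  refine ⟨B, ?_⟩
  have hsup : (range (K + 1)).sup id = K := by
    apply le_antisymm
    · exact Finset.sup_le fun i hi => by
        rw [mem_range] at hi
        simp only [id]
        omega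
    · exact le_sup (f := id) (mem_range.2 (Nat.lt_succ_self K))
  obtain ⟨x₀, hx₀⟩ := eventually_atTop.1 (number_le_rhoStar r (δ / 2) (half_pos hδ) y)
  filter_upwards [hB, eventually_ge_atTop (x₀ + 1), eventually_ge_atTop (y + 3)] with N hN hN1 hN2
  obtain ⟨H, hH, hHm, n, d, h1, h2, h3⟩ := hN
  refine ⟨n, d, h1, h2, fun j hj => ?_⟩
  obtain ⟨g1, g2, g3⟩ := h3 j hj
  rw [hsup] at g2
  refine ⟨g1, g2, ?_⟩
  have hinj : Set.InjOn (fun s => n + j * d + s) (H : Set ℕ) := fun a _ b _ hab => by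
    simp only at hab
    omega
  refine hHm.trans ?_
  rw [← card_image_of_injOn hinj]
  apply card_le_card
  intro u hu
  obtain ⟨s, hs, rfl⟩ := mem_image.1 hu
  have hsK := mem_range.1 (hH hs)
  obtain ⟨hp, hal⟩ := g3 s hs
  rw [mem_filter, mem_Icc]
  refine ⟨by omega, hp, ?_⟩
  refine window_eq hδ hT hcard hx₀ hN1 hN2 (by omega) (by omega) fun t ht => ?_
  have h5 := hal (T.equivFin ⟨t, ht⟩)
  simpa using h5

/-- for suitable `r` and `δ` the function of the almost primes is `ρ*` -/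
theorem eq_rhoStar (hR : Runs) (y : ℕ) : ∃ (r : ℕ) (δ : ℝ), 0 < δ ∧
    rhoAlmost r δ y = rhoStar y := by
  obtain ⟨K, r, δ, hδ, h⟩ := windows hR y 1
  obtain ⟨B, hB⟩ := h 1
  refine ⟨r, δ, hδ, le_antisymm (rhoAlmost_le r δ hδ y) (le_rhoAlmost r δ y _ ?_)⟩
  rw [frequently_atTop]
  intro x₀
  obtain ⟨N, hN, hNx⟩ := (hB.and (eventually_ge_atTop (x₀ + 1))).exists
  obtain ⟨n, d, -, -, h3⟩ := hN
  obtain ⟨g1, -, g3⟩ := h3 0 Nat.one_pos
  obtain ⟨p, hp⟩ := card_pos.1 g3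
  rw [mem_filter, mem_Icc] at hp
  exact ⟨p - 1, by omega, hp.2.2.ge⟩

end Pool.Agent.V8H84.HL
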